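import Mathlib
import Pool.Agent.Lib.MP_16ef92_ag.GF.Top
import Pool.Agent.Lib.MP_03e5d0_nt.FF.MFr

set_option autoImplicit false
set_option linter.unusedSectionVars false
set_option linter.unusedVariables false

namespace Pool.Agent.Lib.MP_775b3b_nt.TF

open Polynomial Filter MP_16ef92_ag MP_16ef92_ag.GF
open scoped Classical

noncomputable section

variable {F : Type} [Field F] [Fintype F]

theorem null_map {Z : F[X] → Prop} (h : Tendsto (fun n : ℕ =>
    ({D : F[X] | D.natDegree = n ∧ Z D}.ncard : ℝ) / (Fintype.card F : ℝ) ^ n) atTop (nhds 0))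
    {g e : F[X]} (hg : g ≠ 0) (he : e ≠ 0) : Tendsto (fun n : ℕ =>
      ({D : F[X] | D.natDegree = n ∧ ∃ E, D = g * E ∧ Z (E * e)}.ncard : ℝ) /
        (Fintype.card F : ℝ) ^ n) atTop (nhds 0) := by
  have h1 := (h.comp ((tendsto_add_atTop_nat e.natDegree).comp
    (tendsto_sub_atTop_nat g.natDegree))).mul_const ((Fintype.card F : ℝ) ^ e.natDegree)
  have h2 : (1 : ℝ) ≤ Fintype.card F := by exact_mod_cast Fintype.card_pos
  rw [zero_mul] at h1
  refine squeeze_zero' (.of_forall fun n => by positivity)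
    ((eventually_gt_atTop 0).mono fun n hn => ?_) h1
  simp only [Function.comp_apply]
  rw [pow_add, div_mul_eq_mul_div, mul_div_mul_right _ _ (by positivity)]
  refine div_le_div₀ (Nat.cast_nonneg _) (Nat.cast_le.2 (Set.ncard_le_ncard_of_injOn
    (fun D => D / g * e) ?_ ?_ ((finite_deg _).subset fun D hD => hD.1))) (by positivity)
    (pow_le_pow_right₀ h2 (Nat.sub_le _ _))
  · rintro _ ⟨rfl, E, rfl, hE⟩
    have h3 : E ≠ 0 := fun e => by simp [e] at hn
    simp only [mul_div_cancel_left₀ E hg, natDegree_mul hg h3, Nat.add_sub_cancel_left]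
    exact ⟨natDegree_mul h3 he, hE⟩
  · rintro _ ⟨-, E, rfl, -⟩ _ ⟨-, E', rfl, -⟩ h3
    simp only [mul_div_cancel_left₀ _ hg] at h3
    rw [mul_right_cancel₀ he h3]

variable [Clos F] [hq : Fact (Odd (Fintype.card F))] {A B d : F[X]}

/-- Almost all admissible twists stay simple after a further fixed twist. -/
theorem dens_tw (hd : Squarefree (A * B * (A - B) * d)) (hA : 0 < A.natDegree)
    (hB : B.natDegree = A.natDegree) (hC : (A - B).natDegree = A.natDegree) (R : F[X] → Prop)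
    (hR : ∀ g E e, d = g * e → Fam0 A B (E * e) → 0 < (E * e).natDegree →
      Simple (Om F) (curve A B (E * e)) → R (g * E)) :
    Tendsto (fun n : ℕ =>
      ({D : F[X] | D.natDegree = n ∧ Squarefree (A * B * (A - B) * D) ∧ R D}.ncard : ℝ) /
      ({D : F[X] | D.natDegree = n ∧ Squarefree (A * B * (A - B) * D)}.ncard : ℝ))
      atTop (nhds 1) := by
  obtain ⟨s, hs⟩ := FF.exists_fr (F := F)
  obtain ⟨Z, -⟩ := exists_fro hs
  have h0 : d ≠ 0 := hd.of_mul_right.ne_zero
  have hS : {g | g ∣ d}.Finite := ((Set.finite_Iic d.natDegree).biUnion fun k _ =>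
    finite_deg k).subset fun g hg => Set.mem_biUnion (natDegree_le_of_dvd hg h0) rfl
  have h1 := tendsto_finsetSum hS.toFinset fun g hg => null_map (main hd.of_mul_left hA hB hC)
    (g := g) (e := d / g) (ne_zero_of_dvd_ne_zero h0 (hS.mem_toFinset.1 hg)) fun e => h0 (by
      rw [← EuclideanDomain.mul_div_cancel' (ne_zero_of_dvd_ne_zero h0 (hS.mem_toFinset.1 hg))
        (hS.mem_toFinset.1 hg), e, mul_zero])
  obtain ⟨κ, h2, h3⟩ := adm_lower hq.out hd.of_mul_left
  have h4 := (h1.div_const κ).const_sub 1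
  rw [Finset.sum_const_zero, zero_div, sub_zero] at h4
  refine tendsto_of_tendsto_of_tendsto_of_le_of_le' h4 tendsto_const_nhds
    ((h3.and (eventually_gt_atTop d.natDegree)).mono fun n ⟨hn, hn'⟩ => ?_)
    (.of_forall fun d => div_le_one_of_le₀ (Nat.cast_le.2 (Set.ncard_le_ncard
      (fun D hD => ⟨hD.1, hD.2.1⟩) ((finite_deg d).subset fun D hD => hD.1))) (Nat.cast_nonneg _))
  have h5 : (0 : ℝ) < (Fintype.card F : ℝ) ^ n := by
    have := Fintype.card_pos (α := F)
    positivity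
  have h6 := ((Set.ncard_le_ncard (s := {D : F[X] | D.natDegree = n ∧
      Squarefree (A * B * (A - B) * D)}) (t := {D : F[X] | D.natDegree = n ∧
      Squarefree (A * B * (A - B) * D) ∧ R D} ∪ ⋃ g ∈ hS.toFinset,
      {D : F[X] | D.natDegree = n ∧ ∃ E, D = g * E ∧ Bad A B (E * (d / g))}) (fun D hD => ?_)
    ((finite_deg n).subset fun D hD => hD.elim And.left fun h => by
      obtain ⟨g, -, h⟩ := Set.mem_iUnion₂.1 h
      exact h.1)).trans (Set.ncard_union_le _ _)).trans
    (Nat.add_le_add_left (Finset.set_ncard_biUnion_le _ _) _)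
  · have h7 := (Nat.cast_le (α := ℝ)).2 h6
    have h8 := (mul_pos h2 h5).trans_le hn
    push_cast at h7
    rw [← Finset.sum_div, le_div_iff₀ h8, div_div, mul_comm _ κ, sub_mul, one_mul]
    refine (sub_le_iff_le_add.2 h7).trans' (sub_le_sub_left ?_ _)
    rw [div_mul_eq_mul_div, le_div_iff₀ (mul_pos h2 h5)]
    exact mul_le_mul_of_nonneg_left hn (by positivity)
  obtain ⟨E, e, a1, a2, a3⟩ := extract_gcd D d
  generalize gcd D d = g at a1 a2
  have a4 : g ≠ 0 := fun e => h0 (by rw [a2, e, zero_mul])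
  have a5 : Squarefree (A * B * (A - B) * (E * e)) := by
    rw [← mul_assoc, squarefree_mul_iff]
    exact ⟨((squarefree_mul_iff.1 hd).1.of_dvd_right ⟨g, by rw [a2, mul_comm]⟩).mul_left
      (gcd_isUnit_iff_isRelPrime.1 a3), hD.2.squarefree_of_dvd
      (mul_dvd_mul_left _ ⟨g, by rw [a1, mul_comm]⟩),
      hd.of_mul_right.squarefree_of_dvd ⟨g, by rw [a2, mul_comm]⟩⟩
  by_cases b : Good (Om F) (curve A B (E * e))
  · refine Or.inl ⟨hD.1, hD.2, a1 ▸ hR g E e a2 ⟨a5, hB, hC, hA⟩ ?_ b.simple⟩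
    obtain ⟨b1, b2⟩ := mul_ne_zero_iff.1 a5.of_mul_right.ne_zero
    have b3 := hD.1
    rw [a1, natDegree_mul a4 b1] at b3
    rw [a2, natDegree_mul a4 b2] at hn'
    rw [natDegree_mul b1 b2]
    omega
  · refine Or.inr (Set.mem_iUnion₂.2 ⟨g, hS.mem_toFinset.2 ⟨e, a2⟩, hD.1, E, a1, ?_⟩)
    rw [a2, mul_div_cancel_left₀ e a4]
    exact ⟨a5, b⟩

end

end Pool.Agent.Lib.MP_775b3b_nt.TF
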