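import Mathlib

set_option autoImplicit false

namespace Pool.Agent.Lib.MP_775b3b_nt.TF

noncomputable section

/-- The Dirichlet series of `a` converges in a right half plane to an entire function `f` with the
functional equation `f (2 - s) = w c ^ (s - 1) f s` for some real `c > 0`. -/
def HasSign (a : ArithmeticFunction ℤ) (w : ℤ) : Prop :=
  ∃ f : ℂ → ℂ, Differentiable ℂ f ∧
    (∃ σ : ℝ, ∀ s : ℂ, σ < s.re → LSeriesHasSum (fun n => (a n : ℂ)) s (f s)) ∧
    ∃ c : ℝ, 0 < c ∧ ∀ s : ℂ, f (2 - s) = w * (c : ℂ) ^ (s - 1) * f s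

variable {K L V : Type} [Field K] [Field L] [Algebra K L] [DecidableEq L] [AddCommGroup V]
  [Module ℂ V]

/-- The space of `Gal(L/K)`-equivariant linear maps from `ρ` to `ℂ ⊗ W(L)`. -/
def homG (ρ : Representation ℂ (L ≃ₐ[K] L) V) (W : WeierstrassCurve K) :
    Submodule ℂ (V →ₗ[ℂ] TensorProduct ℤ ℂ (W.baseChange L).toAffine.Point) where
  carrier := {T | ∀ (g : L ≃ₐ[K] L) (v : V), T (ρ g v) = LinearMap.baseChange ℂ
    (WeierstrassCurve.Affine.Point.map (W' := W.toAffine) (g : L →ₐ[K] L)).toIntLinearMap (T v)}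
  add_mem' := fun hS hT g v => by
    rw [LinearMap.add_apply, LinearMap.add_apply, map_add, hS g v, hT g v]
  zero_mem' := fun g v => by rw [LinearMap.zero_apply, LinearMap.zero_apply, map_zero]
  smul_mem' := fun c T hT g v => by
    rw [LinearMap.smul_apply, LinearMap.smul_apply, map_smul, hT g v]

/-- The multiplicity of `ρ` in `ℂ ⊗ W(L)`, as a cardinal. -/
def mult (ρ : Representation ℂ (L ≃ₐ[K] L) V) (W : WeierstrassCurve K) : Cardinal :=
  Module.rank ℂ (homG ρ W)

end

end Pool.Agent.Lib.MP_775b3b_nt.TF
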