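import Mathlib
import Pool.Agent.Lib.MP_775b3b_nt.TF.Defs
import Pool.Agent.Lib.MP_03e5d0_nt.FF.TAn
import Pool.Agent.Lib.MP_03e5d0_nt.FF.MMain

set_option autoImplicit false
set_option linter.unusedSectionVars false
set_option linter.unusedVariables false

namespace Pool.Agent.Lib.MP_775b3b_nt.TF

open Polynomial ArithmeticFunction MP_16ef92_ag MP_16ef92_ag.GF MP_16ef92_ag.FF MP_03e5d0_nt.FF
open scoped PowerSeries

noncomputable section

theorem hasSign_poly {q : ℕ} (hq : 1 < q) (L : ℤ[X]) {w : ℤ} (h : ∀ i ≤ L.natDegree,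
    q ^ (2 * i) * L.coeff (L.natDegree - i) = w * q ^ L.natDegree * L.coeff i) :
    HasSign (ofPowerSeries q (L : ℤ⟦X⟧)) w := by
  have h0 : (q : ℂ) ≠ 0 := Nat.cast_ne_zero.2 (by omega)
  have h1 : Differentiable ℂ fun s : ℂ => (q : ℂ) ^ (-s) := fun s =>
    ((hasDerivAt_neg s).const_cpow (Or.inl h0)).differentiableAt
  refine ⟨_, (L.map (Int.castRingHom ℂ)).differentiable.comp h1, ⟨0, fun s _ => hasSum_poly hq L s⟩,
    (q ^ L.natDegree : ℕ), by positivity, fun s => ?_⟩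
  have h2 : (q : ℂ) ^ (-s) ≠ 0 := by simp [h0]
  have h3 : (q : ℂ) ^ (-(2 - s)) = ((q : ℂ) ^ 2 * (q : ℂ) ^ (-s))⁻¹ := by
    rw [← Complex.cpow_natCast, ← Complex.cpow_add _ _ h0, ← Complex.cpow_neg]
    rfl
  have h4 : (((q ^ L.natDegree : ℕ) : ℝ) : ℂ) ^ (s - 1) =
      ((q * (q : ℂ) ^ (-s)) ^ L.natDegree)⁻¹ := by
    rw [Complex.ofReal_natCast, Nat.cast_pow, ← Complex.natCast_cpow_natCast_mul,
      Complex.cpow_nat_mul, ← inv_pow, Complex.cpow_sub _ _ h0, Complex.cpow_neg, Complex.cpow_one,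
      mul_inv, inv_inv, div_eq_inv_mul]
  have h5 := (natDegree_map_le (p := L) (f := Int.castRingHom ℂ)).trans_lt (Nat.lt_succ_self _)
  simp only [Function.comp_apply]
  rw [h3, h4, eval_eq_sum_range' h5, eval_eq_sum_range' h5, ← Finset.sum_range_reflect,
    Finset.mul_sum]
  refine Finset.sum_congr rfl fun i hi => ?_
  obtain ⟨j, hj⟩ := Nat.exists_eq_add_of_le (Nat.le_of_lt_succ (Finset.mem_range.1 hi))
  have h6 := congrArg (Int.cast : ℤ → ℂ) (h i (by omega))
  rw [coeff_map, coeff_map, show L.natDegree.succ - 1 - i = j by omega]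
  rw [show L.natDegree - i = j by omega, hj] at h6
  push_cast at h6
  simp only [eq_intCast, hj]
  generalize (q : ℂ) ^ (-s) = z at h2
  rw [(eq_div_iff (pow_ne_zero (2 * i) h0)).2 ((mul_comm _ _).trans h6), inv_pow]
  field_simp
  ring

variable {F : Type} [Field F] [Clos F] [Fintype F] [hq : Fact (Odd (Fintype.card F))]
  {A B D : F[X]}

theorem src_rev (h : Fam0 A B D) (hD : 0 < D.natDegree) {P : ℤ_[2][X]} (hP : Src A B D P) :
    P.reverse = C ((-1) ^ P.rootMultiplicity 1) * P := by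
  obtain ⟨T, ev', s, _, _, hin, hsurj, hker, hro, hs, rfl⟩ := hP
  obtain ⟨Bm, b1, b2⟩ := exists_bm (h.rp T hD hs)
  have b3 := b2 s _ hs hq.1 (h.det T hin hker hro hs)
  obtain ⟨ε, e⟩ := ort_rev _ Bm b1 b3
  rw [(ort_lead _ Bm b1 b3).1, ← ort_sign (LinearMap.charpoly_monic _) e]
  conv_lhs => rw [e, reverse_mul_of_domain, reverse_C]

theorem hasSign_src (h : Fam0 A B D) (hD : 0 < D.natDegree) {P : ℤ_[2][X]} (hP : Src A B D P)
    {L : ℤ[X]} (hL : L.map (Int.castRingHom ℤ_[2]) = P.comp (C (Fintype.card F : ℤ_[2]) * X)) :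
    HasSign (ofPowerSeries (Fintype.card F) (L : ℤ⟦X⟧)) ((-1) ^ P.rootMultiplicity 1) := by
  have hi : Function.Injective (Int.castRingHom ℤ_[2]) := Int.cast_injective
  have h1 : L.natDegree = P.natDegree := by
    rw [← natDegree_map_eq_of_injective hi, hL, natDegree_comp,
      natDegree_C_mul_X _ (Nat.cast_ne_zero.2 Fintype.card_ne_zero), mul_one]
  refine hasSign_poly Fintype.one_lt_card L fun i hi' => hi ?_
  have h2 := congrArg (coeff · i) (src_rev h hD hP)
  simp only [coeff_reverse, ← h1, revAt_le hi', coeff_C_mul] at h2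
  obtain ⟨j, hj⟩ := Nat.exists_eq_add_of_le hi'
  rw [map_mul, map_mul, map_mul, ← coeff_map, ← coeff_map, hL, comp_C_mul_X_coeff,
    comp_C_mul_X_coeff, h2, hj, Nat.add_sub_cancel_left]
  simp only [map_pow, map_natCast, map_neg, map_one]
  ring

end

end Pool.Agent.Lib.MP_775b3b_nt.TF
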