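import Mathlib

set_option autoImplicit false
set_option linter.unusedSectionVars false
set_option linter.unusedVariables false

namespace Pool.Agent.Lib.MP_775b3b_nt.TF

open Polynomial IsDedekindDomain WithZeroMulInt Height
open scoped NNReal Classical

noncomputable section

variable {F : Type} [Field F]

theorem gen_prime (v : HeightOneSpectrum F[X]) :
    Prime (Submodule.IsPrincipal.generator v.asIdeal) :=
  have := v.isPrime
  Submodule.IsPrincipal.prime_generator_of_isPrime _ v.ne_bot

theorem one_lt_base (v : HeightOneSpectrum F[X]) :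
    (1 : ℝ≥0) < 2 ^ (Submodule.IsPrincipal.generator v.asIdeal).natDegree :=
  one_lt_pow₀ one_lt_two (gen_prime v).irreducible.natDegree_pos.ne'

/-- The normalised absolute value at a finite place. -/
def av (v : HeightOneSpectrum F[X]) : AbsoluteValue (RatFunc F) ℝ := v.adicAbv (one_lt_base v)

/-- The normalised absolute value at infinity. -/
def ai (F : Type) [Field F] : AbsoluteValue (RatFunc F) ℝ where
  toFun x := toNNReal (ne_zero_of_lt one_lt_two) (RatFunc.inftyValuation F x)
  map_mul' _ _ := by simp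
  nonneg' _ := NNReal.zero_le_coe
  eq_zero' _ := by simp
  add_le' x y := by
    have h := (toNNReal_strictMono (e := 2) one_lt_two).monotone
    have h1 := h ((RatFunc.inftyValuation F).map_add x y)
    rw [h.map_max] at h1
    exact_mod_cast h1.trans (max_le le_self_add le_add_self)

theorem ai_poly {p : F[X]} (hp : p ≠ 0) :
    ai F (algebraMap F[X] (RatFunc F) p) = 2 ^ p.natDegree := by
  change ((toNNReal _ (RatFunc.inftyValuationDef F _) : ℝ≥0) : ℝ) = _
  rw [RatFunc.inftyValuation.polynomial F hp, toNNReal_neg_apply _ WithZero.exp_ne_zero]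
  simp [WithZero.exp]

theorem fin_poly {p : F[X]} (hp : p ≠ 0) : (fun w : Set.range (av (F := F)) =>
    w.1 (algebraMap F[X] (RatFunc F) p)).HasFiniteMulSupport := by
  refine ((Ideal.finite_factors (I := Ideal.span {p}) (by simpa)).image
    fun v => ⟨av v, v, rfl⟩).subset ?_
  rintro ⟨_, v, rfl⟩ h
  exact ⟨v, Ideal.dvd_span_singleton.2 (not_not.1 (mt (v.adicAbv_coe_eq_one_iff _ p).2 h)), rfl⟩

theorem fin_all {x : RatFunc F} (hx : x ≠ 0) :
    (fun w : Set.range (av (F := F)) => w.1 x).HasFiniteMulSupport := by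
  refine ((fin_poly (RatFunc.num_ne_zero hx)).union (fin_poly x.denom_ne_zero)).subset
    fun w h => by_contra fun e => h ?_
  simp only [Set.mem_union, Function.mem_mulSupport, not_or, not_not] at e
  exact (congrArg w.1 x.num_div_denom).symm.trans (by rw [map_div₀, e.1, e.2, div_one])

theorem prod_mul {x y : RatFunc F} (hx : x ≠ 0) (hy : y ≠ 0) :
    ∏ᶠ w : Set.range (av (F := F)), w.1 (x * y) =
      (∏ᶠ w : Set.range (av (F := F)), w.1 x) * ∏ᶠ w : Set.range (av (F := F)), w.1 y := by
  simp only [map_mul]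
  exact finprod_mul_distrib (fin_all hx) (fin_all hy)

theorem prod_poly (p : F[X]) : p ≠ 0 → 2 ^ p.natDegree *
    ∏ᶠ w : Set.range (av (F := F)), w.1 (algebraMap F[X] (RatFunc F) p) = 1 := by
  refine UniqueFactorizationMonoid.induction_on_prime p (fun h => (h rfl).elim)
    (fun u hu _ => ?_) fun a r ha hr ih _ => ?_
  · rw [natDegree_eq_zero_of_isUnit hu, pow_zero, one_mul]
    refine finprod_eq_one_of_forall_eq_one ?_
    rintro ⟨_, v, rfl⟩
    exact (v.adicAbv_coe_eq_one_iff _ u).2 fun h => v.isPrime.ne_top (v.asIdeal.eq_top_of_isUnit_mem h hu)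
  let v : HeightOneSpectrum F[X] := ⟨Ideal.span {r}, (Ideal.span_singleton_prime hr.ne_zero).2 hr,
    by simpa using hr.ne_zero⟩
  have h1 : (Submodule.IsPrincipal.generator v.asIdeal).natDegree = r.natDegree :=
    natDegree_eq_of_degree_eq (degree_eq_degree_of_associated (Ideal.span_singleton_eq_span_singleton.1
      (Ideal.span_singleton_generator _)))
  rw [map_mul, prod_mul (by simpa using hr.ne_zero) (by simpa using ha), natDegree_mul hr.ne_zero ha,
    pow_add, mul_mul_mul_comm, ih ha, mul_one, finprod_eq_single _ (⟨av v, v, rfl⟩ : Set.range av)]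
  · change _ * ((toNNReal (ne_zero_of_lt (one_lt_base v)) (v.valuation _ _) : ℝ≥0) : ℝ) = _
    rw [v.valuation_of_algebraMap, v.intValuation_singleton hr.ne_zero rfl,
      toNNReal_neg_apply _ WithZero.exp_ne_zero, WithZero.toAdd_unzero_eq_log, WithZero.log_exp, h1]
    simp
  · rintro ⟨_, w, rfl⟩ h
    refine (w.adicAbv_coe_eq_one_iff _ r).2 fun e => h ?_
    rw [HeightOneSpectrum.ext (v.isMaximal.eq_of_le w.isPrime.ne_top
      ((Ideal.span_singleton_le_iff_mem _).2 e))]

/-- The absolute values of the rational function field. -/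
abbrev adm (F : Type) [Field F] : AdmissibleAbsValues (RatFunc F) where
  archAbsVal := {ai F}
  nonarchAbsVal := Set.range av
  isNonarchimedean := by
    rintro _ ⟨v, rfl⟩
    exact v.isNonarchimedean_adicAbv _
  hasFiniteMulSupport := fin_all
  product_formula := fun {x} hx => by
    have h1 := RatFunc.num_ne_zero hx
    have h2 : algebraMap F[X] (RatFunc F) x.denom ≠ 0 := by simpa using x.denom_ne_zero
    have h3 := (div_eq_iff h2).1 x.num_div_denom
    have h4 := prod_poly _ h1
    rw [← ai_poly h1, h3, prod_mul hx h2, map_mul, mul_mul_mul_comm, ai_poly x.denom_ne_zero,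
      prod_poly _ x.denom_ne_zero, mul_one] at h4
    simpa using h4

theorem le_ht (x : RatFunc F) (i : Fin 2) : letI := adm F
    ai F (![algebraMap F[X] (RatFunc F) x.num, algebraMap F[X] (RatFunc F) x.denom] i) ≤
      mulHeight₁ x := by
  let := adm F
  conv_rhs => rw [← x.num_div_denom, mulHeight₁_div_eq_mulHeight,
    mulHeight_eq (by simp [x.denom_ne_zero])]
  refine (Finite.le_ciSup (fun j => ai F (![_, _] j)) i).trans
    ((Multiset.prod_singleton _).ge.trans (le_mul_of_one_le_right ?_ (one_le_finprod ?_)))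
  · exact (Real.iSup_nonneg fun j => (ai F).nonneg _).trans (Multiset.prod_singleton _).ge
  rintro ⟨_, v, rfl⟩
  obtain ⟨a, b, e⟩ := x.isCoprime_num_denom
  have h1 := v.isNonarchimedean_adicAbv (K := RatFunc F) (one_lt_base v)
    (algebraMap _ _ (a * x.num)) (algebraMap _ _ (b * x.denom))
  rw [← map_add, e, map_one, map_one, map_mul, map_mul, map_mul, map_mul] at h1
  refine h1.trans (max_le ?_ ?_) <;>
    refine (mul_le_of_le_one_left (AbsoluteValue.nonneg _ _) (v.adicAbv_coe_le_one _ _)).trans ?_
  exacts [Finite.le_ciSup (fun j => av v (![_, _] j)) 0, Finite.le_ciSup (fun j => av v (![_, _] j)) 1]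

/-- Northcott's theorem for the rational function field. -/
theorem northcott [Finite F] (B : ℝ) : letI := adm F
    {x : RatFunc F | logHeight₁ x ≤ B}.Finite := by
  let := adm F
  obtain ⟨n, hn⟩ := exists_nat_gt (Real.exp B)
  have h1 : {p : F[X] | p.degree < n}.Finite := by
    have := Finite.of_equiv _ (degreeLTEquiv F n).toEquiv.symm
    exact (Set.toFinite (degreeLT F n : Set F[X])).subset fun p hp => mem_degreeLT.2 hp
  have h2 : ∀ (p : F[X]) (x : RatFunc F), logHeight₁ x ≤ B →
      ai F (algebraMap F[X] (RatFunc F) p) ≤ mulHeight₁ x → p.degree < n := fun p x hx hp => by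
    by_cases h0 : p = 0
    · simp [h0]
    rw [ai_poly h0] at hp
    have h3 := (hp.trans ((Real.log_le_iff_le_exp (mulHeight₁_pos x)).1 hx)).trans_lt hn
    rw [degree_eq_natDegree h0, Nat.cast_lt]
    exact (Nat.lt_two_pow_self).trans (by exact_mod_cast h3)
  exact ((h1.prod h1).image fun z => algebraMap F[X] (RatFunc F) z.1 / algebraMap _ _ z.2).subset
    fun x hx => ⟨(x.num, x.denom), ⟨h2 _ x hx (le_ht x 0), h2 _ x hx (le_ht x 1)⟩, x.num_div_denom⟩

end

end Pool.Agent.Lib.MP_775b3b_nt.TF
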