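import Mathlib
import Pool.Agent.Lib.MP_775b3b_nt.TF.Ht
import Pool.Agent.Lib.MP_651af7_nt.MWHt
import Pool.Agent.Lib.MP_16ef92_ag.Pad

set_option autoImplicit false
set_option linter.unusedSectionVars false
set_option linter.unusedVariables false

namespace Pool.Agent.Lib.MP_775b3b_nt.TF

open WeierstrassCurve WeierstrassCurve.Affine WeierstrassCurve.Affine.Point Height MP_16ef92_ag

noncomputable section

/-- A height function. -/
structure IsHt {G : Type} [AddCommGroup G] (h : G → ℝ) (C : ℝ) : Prop where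
  pos : ∀ x, 0 ≤ h x
  par : ∀ x y, |h (x + y) + h (x - y) - 2 * (h x + h y)| ≤ C
  fin : ∀ B, {x | h x ≤ B}.Finite

theorem exists_ht {K : Type} [Field K] [DecidableEq K] [AdmissibleAbsValues K]
    (hK : ∀ B, {x : K | logHeight₁ x ≤ B}.Finite) (W : WeierstrassCurve K) [W.IsElliptic] :
    ∃ C, IsHt (fun P : W.toAffine.Point => logHeight P.xRep) C := by
  obtain ⟨C₁, h₁⟩ := abs_logHeight_sym2_sub_le K
  obtain ⟨C₂, h₂⟩ := abs_logHeight_addSubMap_sub_two_mul_logHeight_le W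
  have h3 : ∀ P Q : W.toAffine.Point,
      |logHeight (sym2x P Q) - (logHeight P.xRep + logHeight Q.xRep)| ≤ C₁ := fun P Q => by
    rcases P with _ | ⟨x₁, y₁, h₁'⟩ <;> rcases Q with _ | ⟨x₂, y₂, h₂'⟩
    · simpa [← zero_def] using h₁ (a := 1) (b := 0) (c := 1) (d := 0) (by simp) (by simp)
    · simpa [← zero_def] using h₁ (a := 1) (b := 0) (c := x₂) (d := 1) (by simp) (by simp)
    · simpa [← zero_def] using h₁ (a := x₁) (b := 1) (c := 1) (d := 0) (by simp) (by simp)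
    · simpa using h₁ (a := x₁) (b := 1) (c := x₂) (d := 1) (by simp) (by simp)
  refine ⟨3 * C₁ + C₂, fun P => logHeight_nonneg _, fun P Q => ?_, fun B => ?_⟩
  · obtain ⟨c, hc, e⟩ := MP_651af7_nt.MW.addSubMap_sym2x P Q
    have a1 := h3 P Q
    have a2 := h3 (P + Q) (P - Q)
    have a3 := h₂ (sym2x P Q)
    rw [e, logHeight_smul_eq_logHeight _ hc] at a3
    rw [abs_le] at a1 a2 a3 ⊢
    constructor <;> linarith [a1.1, a1.2, a2.1, a2.2, a3.1, a3.2]
  refine Set.Finite.of_finite_fibers (fun P => P.xRep)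
    ((((hK B).image fun x => (![x, 1] : Fin 2 → K)).insert ![1, 0]).subset ?_) ?_
  · rintro _ ⟨_ | ⟨x, y, h⟩, hP, rfl⟩
    · exact Or.inl rfl
    · exact Or.inr ⟨x, (logHeight₁_eq_logHeight x).trans_le hP, rfl⟩
  · rintro _ ⟨P, -, rfl⟩
    exact (Set.toFinite {P, -P}).subset fun Q hQ => eq_or_eq_neg_of_xRep_eq_xRep hQ.2

variable {G ι : Type} [AddCommGroup G] [Fintype ι] {h : G → ℝ} {C : ℝ}

theorem IsHt.bound (H : IsHt h C) (P : ι → G) : ∃ c, ∀ (n : ℕ) (a : ι → ℕ) (R : G),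
    (∀ i, a i < 2 ^ n) → 2 ^ n • R = ∑ i, a i • P i → h R ≤ c := by
  classical
  obtain ⟨c, hc⟩ := (Set.finite_range fun ε : ι → Fin 2 => h (∑ i, (ε i : ℕ) • P i)).bddAbove
  have h1 := (abs_nonneg _).trans (H.par 0 0)
  have h2 := (H.pos _).trans (hc ⟨0, rfl⟩)
  refine ⟨C + c + h 0, fun n => ?_⟩
  induction n with
  | zero =>
    intro a R ha e
    obtain rfl : R = 0 := by simpa [fun i => Nat.lt_one_iff.1 (ha i)] using e
    linarith
  | succ n ih =>
    intro a R ha e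
    have h3 := hc ⟨fun i => ⟨a i / 2 ^ n, Nat.div_lt_of_lt_mul (ha i)⟩, rfl⟩
    have h4 := ih (fun i => a i % 2 ^ n) (R + R - ∑ i, (a i / 2 ^ n) • P i)
      (fun i => Nat.mod_lt _ (by positivity)) (by
        rw [smul_sub, ← two_nsmul, ← mul_smul, ← pow_succ, e, sub_eq_iff_eq_add, Finset.smul_sum,
          ← Finset.sum_add_distrib]
        exact Finset.sum_congr rfl fun i _ => by rw [← mul_smul, ← add_smul, Nat.mod_add_div])
    have h5 := (abs_le.1 (H.par R R)).1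
    have h6 := (abs_le.1 (H.par (R + R - ∑ i, (a i / 2 ^ n) • P i) (∑ i, (a i / 2 ^ n) • P i))).2
    rw [sub_self] at h5
    rw [sub_add_cancel] at h6
    linarith [H.pos 0, H.pos (R + R - ∑ i, (a i / 2 ^ n) • P i - ∑ i, (a i / 2 ^ n) • P i)]

/-- Independent points stay independent in the 2-adic completion. -/
theorem IsHt.indep (H : IsHt h C) {P : ι → G} (hP : LinearIndependent ℤ P) {α : ι → ℤ_[2]}
    (hα : ∀ n, ∃ R, 2 ^ n • R = ∑ i, (red n (α i)).val • P i) (i : ι) : α i = 0 := by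
  obtain ⟨c, hc⟩ := H.bound P
  choose R hR using hα
  refine eq_zero_of_dvd fun k => ?_
  obtain ⟨a, b, h1, h2⟩ := Set.Finite.exists_lt_map_eq_of_forall_mem (f := fun n => R (k + n))
    (fun n => hc _ _ _ (fun i => ZMod.val_lt _) (hR _)) (H.fin c)
  obtain ⟨l, rfl⟩ := Nat.exists_eq_add_of_lt h1
  have h3 := Fintype.linearIndependent_iff.1 hP (fun i => ((red (k + (a + l + 1)) (α i)).val : ℤ) -
    (2 ^ (l + 1) * (red (k + a) (α i)).val : ℕ)) (by
      simp only [sub_smul, natCast_zsmul, mul_smul, Finset.sum_sub_distrib]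
      rw [← Finset.smul_sum, ← hR, ← hR, h2, ← mul_smul, ← pow_add, sub_eq_zero]
      congr 2
      omega) i
  have h4 : ∀ n, k ≤ n → 2 ^ k ∣ α i - (red n (α i)).val := fun n hn =>
    (pow_dvd_pow 2 hn).trans (red_eq.1 (by simp))
  have h5 := congrArg (Int.cast : ℤ → ℤ_[2]) h3
  push_cast at h5
  refine (IsCoprime.pow_left ⟨2 ^ l, 1, by ring⟩ : IsCoprime (2 ^ k) (1 - 2 ^ (l + 1) : ℤ_[2]))
    |>.dvd_of_dvd_mul_left ?_
  convert dvd_sub (h4 (k + (a + l + 1)) (by omega)) ((h4 (k + a) (by omega)).mul_left (2 ^ (l + 1)))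
    using 1
  linear_combination h5

end

end Pool.Agent.Lib.MP_775b3b_nt.TF
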