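import Mathlib
import Pool.Agent.Lib.MP_775b3b_nt.TF.MW
import Pool.Agent.Lib.MP_03e5d0_nt.FF.MMain
import Pool.Agent.Lib.MP_03e5d0_nt.FF.ELoc

set_option autoImplicit false
set_option linter.unusedSectionVars false
set_option linter.unusedVariables false

namespace Pool.Agent.Lib.MP_775b3b_nt.TF

open Polynomial WeierstrassCurve WeierstrassCurve.Affine Module MP_16ef92_ag MP_16ef92_ag.GF
  MP_16ef92_ag.FF
open scoped Classical

noncomputable section

/-- Points fixed by the Galois group are rational. -/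
theorem exists_pt {K L : Type} [Field K] [Field L] [Algebra K L] [IsGalois K L] [DecidableEq K]
    [DecidableEq L] (W : WeierstrassCurve K) (P : (W.baseChange L).toAffine.Point)
    (h : ∀ g : L ≃ₐ[K] L, Point.map (W' := W.toAffine) (g : L →ₐ[K] L) P = P) :
    ∃ Q, Point.baseChange (W' := W.toAffine) K L Q = P := by
  rcases P with _ | ⟨x, y, n⟩
  · exact ⟨0, rfl⟩
  obtain ⟨a, rfl⟩ := (InfiniteGalois.mem_range_algebraMap_iff_fixed (k := K) x).2
    fun g => (Point.some.inj (h g)).1
  obtain ⟨b, rfl⟩ := (InfiniteGalois.mem_range_algebraMap_iff_fixed (k := K) y).2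
    fun g => (Point.some.inj (h g)).2
  exact ⟨.some a b ((W.toAffine.baseChange_nonsingular (f := Algebra.ofId K L)
    (algebraMap K L).injective a b).1 n), rfl⟩

theorem card_le_mult {R Z ι : Type} [CommRing R] [IsDomain R] [AddCommGroup Z] [Module R Z]
    [Module.Free R Z] [Module.Finite R Z] [Fintype ι] (g : End R Z) {v : ι → Z}
    (hv : LinearIndependent R v) (h : ∀ i, g (v i) = v i) :
    Fintype.card ι ≤ g.charpoly.rootMultiplicity 1 := by
  let K := FractionRing R
  rw [eq_rootMultiplicity_map (IsFractionRing.injective R K), map_one,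
    ← LinearMap.charpoly_baseChange]
  refine le_trans (LinearIndependent.fintype_card_le_finrank (b := fun i =>
    ⟨TensorProduct.mk R K Z 1 (v i), End.mem_eigenspace_iff.2 (by simp [h])⟩)
    (.of_comp (Submodule.subtype _) ?_)) (LinearMap.finrank_eigenspace_le _ 1)
  exact hv.of_isLocalizedModule K (nonZeroDivisors R) (TensorProduct.mk R K Z 1)

variable {F : Type} [Field F] [Clos F] [Fintype F] [hq : Fact (Odd (Fintype.card F))]
  {A B D : F[X]}

theorem curve_ne (h0 : A * B * (A - B) * D ≠ 0) : (curve A B D).Δ ≠ 0 := by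
  simp only [mul_ne_zero_iff] at h0
  rw [show curve A B D = cv (rf (D * A)) (rf (D * B)) from rfl, cv_Δ, ← map_sub, ← map_mul,
    ← map_mul, ← mul_sub, ← map_ofNat (algebraMap F (RatFunc F))]
  exact mul_ne_zero (pow_ne_zero _ ((_root_.map_ne_zero _).2 two_neF))
    (pow_ne_zero _ (RatFunc.algebraMap_ne_zero (by simp [h0])))

/-- The rank is at most the multiplicity of the eigenvalue one. -/
theorem rank_le_mult (h : Fam0 A B D) (hD : 0 < D.natDegree) {P : ℤ_[2][X]} (hP : Src A B D P) :
    Module.rank ℤ ((curve A B D).baseChange (RatFunc F)).toAffine.Point ≤ P.rootMultiplicity 1 := by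
  obtain ⟨T, ev', s, _, _, hin, hsurj, hker, hro, hs, rfl⟩ := hP
  have hp := h.rp T hD hs
  have hd := h.det T hin hker hro hs
  obtain ⟨Bm, b1, b2⟩ := exists_bm hp
  rw [(ort_lead (FM T s) Bm b1 (b2 s _ hs hq.1 hd)).1]
  refine rank_le fun S hS => ?_
  let ι := Point.baseChange (W' := (curve A B D).toAffine) (RatFunc F) (Om F)
  have hι : ∀ (g : Gam F) Q, pm g (ι Q) = ι Q := fun g Q => Point.map_baseChange _ Q
  choose f hf using h.cub.half exists_sq
  let p : S → ℕ → Pt (curve A B D) := fun i n => f^[n] (ι i)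
  have h1 : ∀ i n, 2 • p i (n + 1) = p i n := fun i n => by
    rw [two_nsmul]
    simp only [p, Function.iterate_succ_apply', hf]
  have h2 : ∀ i n, 2 ^ n • p i n = ι i := fun i n => by
    induction n with
    | zero => exact one_nsmul _
    | succ n ih => rw [pow_succ, mul_smul, h1, ih]
  have hinj : ∀ x y, ev' x = ev' y → x = y := fun x y e => sub_eq_zero.1
    (eq_zero_of_Dv fun n => (hker n _).1 (by rw [map_sub, e, sub_self]; rfl))
  choose a ha using fun i (g : Gam F) => hsurj (act g (p i) - p i)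
    ⟨sub_eq_zero.2 (hι g _), fun n => by
      rw [Pi.sub_apply, Pi.sub_apply, act_apply, act_apply, smul_sub, ← map_nsmul, h1]⟩
  have h3 : ∀ i g l, a i (g * l) = a i g + T.ro g (a i l) := fun i g l => hinj _ _ (by
    rw [map_add, hro, ha, ha, ha, act_mul, ← sub_add_cancel (act l (p i)) (p i), act_add,
      add_sub_cancel_right]
    abel)
  have h4 : ∀ i, Cy T (a i) := fun i => ⟨fun g _ l _ => h3 i g l, fun n =>
    (near_pm (p i n)).mono fun g hg _ => (hker n _).1 (by rw [ha]; exact sub_eq_zero.2 hg)⟩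
  have h5 : ∀ i g, tw T s (a i) g - a i g = T.ro g (a i s) - a i s := fun i g => by
    have e := h3 i s (s⁻¹ * g * s)
    rw [show s * (s⁻¹ * g * s) = g * s by group, h3] at e
    rw [tw, sub_eq_sub_iff_add_eq_add, add_comm, ← e, add_comm]
  let c : S → Ad T := fun i => ⟨a i, h4 i, ET.w_key h hs hd (h4 i) fun O x hO =>
    ⟨0, a i s, fun g _ => (one_smul _ _).trans (h5 i g)⟩⟩
  rw [← Fintype.card_coe]
  refine card_le_mult (FM T s) (v := fun i => (Nu T).mkQ (c i))
    (Fintype.linearIndependent_iff.2 fun α hα i => ?_) fun i => ?_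
  swap
  · rw [FF_mk, mk_eq_mk]
    refine ⟨-((2 : ℤ_[2]) • a i s), fun g _ => ?_⟩
    rw [map_neg, map_smul, two_hL, neg_sub, ← h5, add_sub_cancel]
    rfl
  simp only [← map_smul, ← map_sum] at hα
  obtain ⟨t, ht⟩ := mem_Nu.1 ((Submodule.Quotient.mk_eq_zero _).1 hα)
  let b : Gam F → V := fun g => ∑ i, (2 * α i) • a i g - (t - T.ro g t)
  have h6 : ∀ g ∈ Geo F, b g = 0 := fun g hg => by
    have e := congrArg ((2 : ℤ_[2]) • ·) (ht g hg)
    simp only [two_hL, Submodule.coe_sum, Submodule.coe_smul, Finset.sum_apply, Pi.smul_apply,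
      Finset.smul_sum, ← mul_smul] at e
    exact sub_eq_zero.2 e
  have h7 : ∀ g l, b (g * l) = b g + T.ro g (b l) := fun g l => by
    simp only [b, h3, smul_add, Finset.sum_add_distrib, map_sub, map_sum, map_smul, ro_mul]
    abel
  obtain ⟨x, γ, hγ, hx⟩ := hp.exists_neg
  have h8 : ∀ g, b g = 0 := fun g => by
    have e := h7 g (g⁻¹ * γ * g)
    rw [show g * (g⁻¹ * γ * g) = γ * g by group, h7, h6 _ hγ.geo, h6 _ (geo_conj hγ.geo g), map_zero,
      zero_add, add_zero] at e
    exact (hx γ hγ _).symm.trans (hL_eq (by rw [e, sub_self, smul_zero]))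
  have h9 : ∀ (β : ℤ_[2]) y n, ev' (β • y) n = (red n β).val • ev' y n := fun β y n => by
    rw [← Pi.smul_apply, ← map_nsmul, ← sub_eq_zero, ← Pi.sub_apply, ← map_sub, hker,
      ← Nat.cast_smul_eq_nsmul ℤ_[2], ← sub_smul]
    obtain ⟨w, hw⟩ := red_eq.1 (by simp : red n β = red n (red n β).val)
    exact mem_Dv_iff.2 ⟨w • y, by rw [hw, mul_smul]⟩
  have : ((curve A B D).baseChange (RatFunc F)).IsElliptic :=
    ⟨(curve_ne h.sq.ne_zero).isUnit⟩
  let := adm F
  obtain ⟨C, H⟩ := exists_ht northcott ((curve A B D).baseChange (RatFunc F))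
  refine (mul_eq_zero.1 (H.indep hS (α := fun i => 2 * α i) (fun n => ?_) i)).resolve_left
    two_ne_zero
  obtain ⟨R, hR⟩ := exists_pt (curve A B D) (∑ i, (red n (2 * α i)).val • p i n + ev' t n)
    fun g => by
      have e := congrFun (congrArg ev' (sub_eq_zero.1 (h8 g))) n
      simp only [map_sum, map_sub, Finset.sum_apply, Pi.sub_apply, h9, ha, hro, act_apply, smul_sub,
        Finset.sum_sub_distrib, ← map_nsmul] at e
      rw [map_add, map_sum, ← eq_sub_iff_add_eq, ← add_sub_assoc', ← e]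
      abel
  refine ⟨R, Point.map_injective (Algebra.ofId _ (Om F)) ?_⟩
  rw [map_nsmul, hR, smul_add, Finset.smul_sum, map_sum, ← Pi.smul_apply, ← map_nsmul,
    (hker n _).2 (mem_Dv_iff.2 ⟨t, by rw [← Nat.cast_smul_eq_nsmul ℤ_[2]]; simp⟩), add_zero]
  exact Finset.sum_congr rfl fun i _ => by rw [smul_comm, h2, map_nsmul]

end

end Pool.Agent.Lib.MP_775b3b_nt.TF
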