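import Mathlib
import Pool.Agent.Lib.MP_775b3b_nt.TF.Defs
import Pool.Agent.Lib.MP_775b3b_nt.TF.TK

set_option autoImplicit false
set_option linter.unusedSectionVars false
set_option linter.unusedVariables false

namespace Pool.Agent.Lib.MP_775b3b_nt.TF

open WeierstrassCurve WeierstrassCurve.Affine Module MP_16ef92_ag.GF TensorProduct

noncomputable section

variable {K L V : Type} [Field K] [Field L] [Algebra K L] [DecidableEq K] [DecidableEq L]
  [AddCommGroup V] [Module ℂ V] {W W' : WeierstrassCurve K} {u : L}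

/-- The action on points. -/
abbrev ac (W : WeierstrassCurve K) (g : L ≃ₐ[K] L) :
    (W.baseChange L).toAffine.Point →ₗ[ℤ] (W.baseChange L).toAffine.Point :=
  (Point.map (W' := W.toAffine) (g : L →ₐ[K] L)).toIntLinearMap

theorem sc_ac (h : Sc (W.baseChange L).toAffine (W'.baseChange L).toAffine u) (g : L ≃ₐ[K] L) :
    (g u = u → ac W' g ∘ₗ h.hom.toIntLinearMap = h.hom.toIntLinearMap ∘ₗ ac W g) ∧
    (g u = -u → ac W' g ∘ₗ h.hom.toIntLinearMap = -(h.hom.toIntLinearMap ∘ₗ ac W g)) := by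
  refine ⟨fun e => LinearMap.ext ?_, fun e => LinearMap.ext ?_⟩ <;> rintro (_ | ⟨x, y, n⟩)
  · rfl
  · change Point.some _ _ _ = Point.some _ _ _
    simp [e]
  · rfl
  · change Point.some _ _ _ = Point.some _ _ _
    simp only [Point.some.injEq, map_mul, map_pow, show (g : L →ₐ[K] L) u = -u from e, negY,
      h.b1, h.b3]
    constructor <;> ring

/-- The multiplicity is at most the rank of the twist. -/
theorem mult_le [FiniteDimensional K L] [IsGalois K L] (ρ : Representation ℂ (L ≃ₐ[K] L) V)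
    (hV : finrank ℂ V = 1) (h : Sc (W.baseChange L).toAffine (W'.baseChange L).toAffine u)
    (hρ : ∀ g : L ≃ₐ[K] L, (g u = u ∧ ρ g = 1) ∨ (g u = -u ∧ ρ g = -1)) :
    mult ρ W ≤ Module.rank ℤ (W'.baseChange K).toAffine.Point := by
  obtain ⟨w, -, hw⟩ := finrank_eq_one_iff'.1 hV
  let ι := (Point.baseChange (W' := W'.toAffine) K L).toIntLinearMap.baseChange ℂ
  let S := h.hom.toIntLinearMap.baseChange ℂ
  have h1 : ∀ z, ∑ g : L ≃ₐ[K] L, (ac W' g).baseChange ℂ z ∈ LinearMap.range ι := fun z => by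
    induction z with
    | zero => simp
    | add a b ha hb => simpa [Finset.sum_add_distrib] using add_mem ha hb
    | tmul c P =>
      obtain ⟨Q, hQ⟩ := exists_pt W' (∑ g : L ≃ₐ[K] L, ac W' g P) fun l => by
        rw [map_sum]
        exact Fintype.sum_equiv (Equiv.mulLeft l) _ _ fun g => Point.map_map ..
      exact ⟨c ⊗ₜ Q, by simp [ι, hQ, tmul_sum]⟩
  have h2 : ∀ T ∈ homG ρ W, S (T w) ∈ LinearMap.range ι := fun T hT => by
    have h3 := h1 (S (T w))
    rw [Finset.sum_congr rfl (g := fun _ => S (T w)) fun g _ => ?_, Finset.sum_const,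
      ← Nat.cast_smul_eq_nsmul ℂ, Submodule.smul_mem_iff _ (by simp)] at h3
    · exact h3
    rw [← LinearMap.comp_apply, ← LinearMap.baseChange_comp]
    rcases hρ g with ⟨a, b⟩ | ⟨a, b⟩
    · rw [(sc_ac h g).1 a, LinearMap.baseChange_comp, LinearMap.comp_apply, ← hT, b, End.one_apply]
    · rw [(sc_ac h g).2 a, LinearMap.baseChange_neg, LinearMap.neg_apply, LinearMap.baseChange_comp,
        LinearMap.comp_apply, ← hT, b, LinearMap.neg_apply, End.one_apply, map_neg, map_neg, neg_neg]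
  rw [← (TensorProduct.isBaseChange ℤ _ ℂ).rank_eq]
  refine (LinearMap.rank_le_of_injective (LinearMap.codRestrict _
    (S ∘ₗ LinearMap.applyₗ w ∘ₗ (homG ρ W).subtype) fun T => h2 T.1 T.2)
    ((injective_iff_map_eq_zero _).2 fun T hT => Subtype.ext (LinearMap.ext fun v => ?_))).trans
    (rank_range_le ι)
  have h3 : h.symm.hom.toIntLinearMap ∘ₗ h.hom.toIntLinearMap = .id := LinearMap.ext fun P =>
    (injective_iff_map_eq_zero h.hom).2 (fun _ => h.hom_eq_zero.1) (h.hom_symm _)
  have h4 := congrArg (h.symm.hom.toIntLinearMap.baseChange ℂ) (congrArg Subtype.val hT)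
  change h.symm.hom.toIntLinearMap.baseChange ℂ (S (T.1 w)) = _ at h4
  rw [← LinearMap.comp_apply, ← LinearMap.baseChange_comp, h3, LinearMap.baseChange_id,
    LinearMap.id_apply] at h4
  obtain ⟨c, rfl⟩ := hw v
  rw [map_smul, h4]
  simp

end

end Pool.Agent.Lib.MP_775b3b_nt.TF
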