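import Mathlib
import Pool.Agent.Lib.MP_775b3b_nt.TF.Rp
import Pool.Agent.Lib.MP_775b3b_nt.TF.Fe
import Pool.Agent.Lib.MP_775b3b_nt.TF.Dn
import Pool.Agent.Lib.MP_03e5d0_nt.FF.TEu
import Pool.Agent.Lib.MP_03e5d0_nt.FF.EMain

set_option autoImplicit false
set_option linter.unusedSectionVars false
set_option linter.unusedVariables false

namespace Pool.Agent.Lib.MP_775b3b_nt.TF

open Polynomial Filter WeierstrassCurve MP_16ef92_ag MP_16ef92_ag.GF MP_16ef92_ag.FF MP_03e5d0_nt
  MP_03e5d0_nt.FF
open scoped Classical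

noncomputable section

variable {F : Type} [Field F] [Fintype F]

section
variable [Clos F] [hq : Fact (Odd (Fintype.card F))] {A B D g : F[X]}

/-- Squares do not change the L-function. -/
theorem lfun_sq (h : A * B * (A - B) * D ≠ 0) (hg : g ≠ 0) :
    Lfun (twist A B (g ^ 2 * D)) = Lfun (twist A B D) := by
  have h1 := RatFunc.algebraMap_ne_zero hg
  refine congrArg ArithmeticFunction.eulerProduct (funext fun v => ?_)
  have := v.2
  rw [localEulerFactor, localEulerFactor, localPowerSeries, localPowerSeries,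
    ← localPolynomial_smul v.1 (twist A B D) (curve_ne h) ⟨(Units.mk0 _ h1)⁻¹, 0, 0, 0⟩]
  congr 4
  ext <;> simp [twist, variableChange_def] <;> ring

end

/-- The rule holds for almost all twists. -/
theorem family (hq : Odd (Fintype.card F)) {A B d : F[X]} (hA : 0 < A.natDegree)
    (hB : B.natDegree = A.natDegree) (hC : (A - B).natDegree = A.natDegree)
    (hd : Squarefree (A * B * (A - B) * d)) {L V : Type} [Field L] [DecidableEq L]
    [Algebra (RatFunc F) L] [FiniteDimensional (RatFunc F) L] [IsGalois (RatFunc F) L] {δ : L}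
    (hδ : δ ^ 2 = algebraMap (RatFunc F) L (algebraMap F[X] (RatFunc F) d))
    [AddCommGroup V] [Module ℂ V] (ρ : Representation ℂ (L ≃ₐ[RatFunc F] L) V)
    (hV : Module.finrank ℂ V = 1)
    (hρ : ∀ g : L ≃ₐ[RatFunc F] L, (g δ = δ ∧ ρ g = 1) ∨ (g δ = -δ ∧ ρ g = -1)) :
    Tendsto (fun n : ℕ =>
      (({D : F[X] | D.natDegree = n ∧ Squarefree (A * B * (A - B) * D) ∧
        ((HasSign (Lfun (twist A B (D * d))) 1 ∧ HasAnRank (twist A B (D * d)) 0 ∧
            mult ρ (twist A B D) = 0) ∨
          (HasSign (Lfun (twist A B (D * d))) (-1) ∧ HasAnRank (twist A B (D * d)) 1 ∧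
            mult ρ (twist A B D) ≤ 1))}.ncard : ℝ)) /
      ({D : F[X] | D.natDegree = n ∧ Squarefree (A * B * (A - B) * D)}.ncard : ℝ))
      atTop (nhds 1) := by
  have : Fact (Odd (Fintype.card F)) := ⟨hq⟩
  let M := separableClosure (RatFunc F) (AlgebraicClosure (RatFunc F))
  let : Clos F := ⟨M, inferInstance, inferInstance, inferInstance, inferInstance, inferInstance,
    inferInstance⟩
  refine dens_tw hd hA hB hC _ fun g E e h1 h h2 hS => ?_
  obtain ⟨P, m, a1, a2, a3, a4, -, Q, a5, a6, a7⟩ := core h h2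
  have h0 : d ≠ 0 := hd.of_mul_right.ne_zero
  have hg : g ≠ 0 := fun e => h0 (by rw [h1, e, zero_mul])
  let φ := (algebraMap (RatFunc F) L).comp (algebraMap F[X] (RatFunc F))
  have h3 : ∀ p, p ≠ 0 → φ p ≠ 0 := fun p hp =>
    (_root_.map_ne_zero (algebraMap (RatFunc F) L)).2 (RatFunc.algebraMap_ne_zero hp)
  have h4 : (δ / φ g) ^ 2 * φ g = φ e := by
    have := h3 g hg
    rw [div_pow, show δ ^ 2 = φ d from hδ, h1, map_mul]
    field_simp
  have h5 : mult ρ (twist A B (g * E)) ≤ m := by
    refine (mult_le (W' := curve A B (E * e)) (u := δ / φ g) ρ hV ⟨map_zero _, map_zero _,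
      map_zero _, map_zero _, ?_, ?_, (map_zero _).trans (by simp [twist]), fun e' => ?_⟩
      fun σ => ?_).trans (a6 ▸ rank_le_mult h h2 a5)
    · change algebraMap (RatFunc F) L (-(_ + _)) = _ * algebraMap (RatFunc F) L (-(_ + _))
      rw [map_neg, map_neg, map_add, map_add]
      change -(φ _ + φ _) = _ * -(φ _ + φ _)
      simp only [map_mul, ← h4]
      ring
    · change algebraMap (RatFunc F) L (_ * _) = _ * algebraMap (RatFunc F) L (_ * _)
      rw [map_mul, map_mul]
      change φ _ * φ _ = _ * (φ _ * φ _)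
      simp only [map_mul, ← h4]
      ring
    · rw [e', zero_pow two_ne_zero, zero_mul] at h4
      exact h3 e (fun e => h0 (by rw [h1, e, mul_zero])) h4.symm
    · rw [map_div₀, show σ (φ g) = φ g from σ.commutes _, ← neg_div]
      exact (hρ σ).imp (And.imp_left fun e => by rw [e]) (And.imp_left fun e => by rw [e])
  have h6 := hasSign_src h h2 a5 a7
  have h7 := (hasOrd_iff Fintype.one_lt_card P a1 m).2 a3
  rw [← lfun_eq h a2, ← lfun_sq h.sq.ne_zero hg, show g ^ 2 * (E * e) = g * E * d by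
    rw [h1]; ring] at h6 h7
  rw [a6] at h6
  have h8 := a4 hS
  interval_cases m
  · exact Or.inl ⟨h6, h7, le_antisymm (by simpa using h5) zero_le⟩
  · exact Or.inr ⟨by simpa using h6, h7, by simpa using h5⟩

end

end Pool.Agent.Lib.MP_775b3b_nt.TF
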